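import Mathlib
import Pool.Agent.H250.MR.Stm

set_option autoImplicit false

namespace Pool.Agent.H653.MR

open Pool.Agent.H250.MR

theorem exp_lb (t : ℝ) (ht : -1 ≤ t) : 1 + t + (5 / 18) * t ^ 2 ≤ Real.exp t := by
  rcases le_total 0 t with h | h
  · have := Real.quadratic_le_exp_of_nonneg h
    nlinarith [sq_nonneg t]
  · have habs : |t| ≤ 1 := abs_le.mpr ⟨ht, by linarith⟩
    have := Real.exp_bound habs (n := 3) (by norm_num)
    rw [abs_of_nonpos h] at this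
    simp only [Finset.sum_range_succ, Finset.sum_range_zero, Nat.factorial] at this
    have h2 := (abs_le.mp this).1
    norm_num at h2
    have h3 : 0 ≤ t ^ 2 * (1 + t) := mul_nonneg (sq_nonneg t) (by linarith)
    nlinarith

theorem norm_id (a κ : ℝ) (x : ℂ) : ‖1 + ((κ * a : ℝ) : ℂ) * x‖ ^ 2 =
    1 - κ + κ * ‖1 + (a : ℂ) * x‖ ^ 2 - κ * (1 - κ) * a ^ 2 * ‖x‖ ^ 2 := by
  rw [Complex.sq_norm, Complex.sq_norm, Complex.sq_norm, Complex.normSq_apply,
    Complex.normSq_apply, Complex.normSq_apply]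
  simp only [Complex.add_re, Complex.add_im, Complex.one_re, Complex.one_im, Complex.mul_re,
    Complex.mul_im, Complex.ofReal_re, Complex.ofReal_im]
  ring

theorem r_lb (a : ℝ) (x : ℂ) (ha : 0 < a) (h : ‖1 + (a : ℂ) * x‖ ≤ ‖x‖) :
    1 ≤ (1 + a) * ‖x‖ := by
  have h1 : ‖(1 : ℂ)‖ ≤ ‖1 + (a : ℂ) * x‖ + ‖(a : ℂ) * x‖ := by
    have := norm_sub_le (1 + (a : ℂ) * x) ((a : ℂ) * x)
    simpa using this
  rw [norm_mul, Complex.norm_real, Real.norm_eq_abs, abs_of_pos ha, norm_one] at h1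
  linarith

theorem T1 : S_T1 := by
  intro a κ x ha0 ha1 hk0 hk1 hx
  have hr := r_lb a x ha0 hx
  have hN := norm_id a κ x
  set r := ‖x‖ with hrdef
  have hr0 : 0 ≤ r := norm_nonneg x
  have hrh : 1 / 2 ≤ r := by nlinarith
  rcases le_total (r - 1) (a * r) with hs | hs
  · -- case 1
    have hc2 : ‖1 + (a : ℂ) * x‖ ^ 2 ≤ r ^ 2 := pow_le_pow_left₀ (norm_nonneg _) hx 2
    set B := 1 - κ + κ * r ^ 2 - κ * (1 - κ) * a ^ 2 * r ^ 2 with hB
    have hNB : ‖1 + ((κ * a : ℝ) : ℂ) * x‖ ^ 2 ≤ B := by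
      rw [hN, hB]
      have := mul_le_mul_of_nonneg_left hc2 hk0
      linarith
    have ht : -1 ≤ 2 * κ * (r - 1) := by nlinarith
    have hexp := exp_lb _ ht
    have hs2 : (r - 1) ^ 2 ≤ a ^ 2 * r ^ 2 := by
      have h1 : 0 ≤ (a * r - (r - 1)) * (a * r + (r - 1)) :=
        mul_nonneg (by linarith) (by linarith)
      nlinarith
    have hR : 0 ≤ a ^ 2 * r ^ 2 := by positivity
    -- key
    have key : κ * a ^ 2 * r ^ 2 / 20 ≤
        (1 - κ) * (a ^ 2 * r ^ 2) - (1 - (10 / 9) * κ) * (r - 1) ^ 2 := by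
      rcases le_total κ (9 / 10) with hk | hk
      · have h1 := mul_le_mul_of_nonneg_left hs2 (show 0 ≤ 1 - (10 / 9) * κ by linarith)
        have h2 := mul_nonneg hk0 hR
        nlinarith
      · have h1 : 0 ≤ (10 / 9 * κ - 1) * (r - 1) ^ 2 := mul_nonneg (by linarith) (sq_nonneg _)
        have h3 : 1 / 20 * (a ^ 2 * r ^ 2) ≤ (1 - κ) * (a ^ 2 * r ^ 2) :=
          mul_le_mul_of_nonneg_right (by linarith) hR
        have h4 : κ * (a ^ 2 * r ^ 2) ≤ 1 * (a ^ 2 * r ^ 2) :=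
          mul_le_mul_of_nonneg_right (by linarith) hR
        nlinarith
    have key2 : κ * (κ * a ^ 2 * r ^ 2 / 20) ≤
        κ * ((1 - κ) * (a ^ 2 * r ^ 2) - (1 - (10 / 9) * κ) * (r - 1) ^ 2) :=
      mul_le_mul_of_nonneg_left key hk0
    have hfin : B + κ ^ 2 * a ^ 2 * r ^ 2 / 20 ≤ Real.exp (2 * κ * (r - 1)) := by
      refine le_trans ?_ hexp
      rw [hB]
      nlinarith [key2]
    have hB4 : B ≤ 4 * r ^ 2 := by
      rw [hB]
      have h1 : 0 ≤ κ * (1 - κ) * a ^ 2 * r ^ 2 := by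
        have : 0 ≤ 1 - κ := by linarith
        positivity
      have h2 : (1 - κ) * 1 ≤ (1 - κ) * (4 * r ^ 2) :=
        mul_le_mul_of_nonneg_left (by nlinarith) (by linarith)
      have h3 : 0 ≤ κ * r ^ 2 := by positivity
      nlinarith
    have hκa : 0 ≤ κ ^ 2 * a ^ 2 / 80 := by positivity
    calc ‖1 + ((κ * a : ℝ) : ℂ) * x‖ ^ 2 * (1 + κ ^ 2 * a ^ 2 / 80)
        ≤ B * (1 + κ ^ 2 * a ^ 2 / 80) := mul_le_mul_of_nonneg_right hNB (by linarith)
      _ = B + B * (κ ^ 2 * a ^ 2 / 80) := by ring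
      _ ≤ B + 4 * r ^ 2 * (κ ^ 2 * a ^ 2 / 80) := by
          have := mul_le_mul_of_nonneg_right hB4 hκa
          linarith
      _ = B + κ ^ 2 * a ^ 2 * r ^ 2 / 20 := by ring
      _ ≤ _ := hfin
  · -- case 2
    have hr1 : 1 ≤ r := by nlinarith
    have hu0 : 0 ≤ κ * a * r := by positivity
    have hle : ‖1 + ((κ * a : ℝ) : ℂ) * x‖ ≤ 1 + κ * a * r := by
      refine (norm_add_le _ _).trans ?_
      rw [norm_one, norm_mul, Complex.norm_real, Real.norm_eq_abs,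
        abs_of_nonneg (by positivity)]
    have hle2 := pow_le_pow_left₀ (norm_nonneg _) hle 2
    have hq := Real.quadratic_le_exp_of_nonneg hu0
    have h1 : Real.exp (2 * (κ * a * r)) ≤ Real.exp (2 * κ * (r - 1)) := by
      apply Real.exp_le_exp.mpr
      have := mul_le_mul_of_nonneg_left hs hk0
      nlinarith
    have h2 : Real.exp (2 * (κ * a * r)) = Real.exp (κ * a * r) ^ 2 := by
      rw [← Real.exp_nat_mul]
      norm_num
    have h3 : (1 + κ * a * r + (κ * a * r) ^ 2 / 2) ^ 2 ≤ Real.exp (κ * a * r) ^ 2 :=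
      pow_le_pow_left₀ (by positivity) hq 2
    have hul : κ * a * r ≤ r := by
      have : κ * a ≤ 1 := by nlinarith
      nlinarith
    have h4 : (1 + κ * a * r) * (κ ^ 2 * a ^ 2 / 80) ≤ (κ * a * r) ^ 2 := by
      have h5 : (1 + κ * a * r) ≤ 80 * r ^ 2 := by nlinarith
      have h6 := mul_le_mul_of_nonneg_right h5 (show 0 ≤ κ ^ 2 * a ^ 2 / 80 by positivity)
      nlinarith
    have h7 : (1 + κ * a * r) * ((1 + κ * a * r) * (κ ^ 2 * a ^ 2 / 80)) ≤
        (1 + κ * a * r) * (κ * a * r) ^ 2 := mul_le_mul_of_nonneg_left h4 (by linarith)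
    have h8 : 0 ≤ (κ * a * r) ^ 4 := by positivity
    calc ‖1 + ((κ * a : ℝ) : ℂ) * x‖ ^ 2 * (1 + κ ^ 2 * a ^ 2 / 80)
        ≤ (1 + κ * a * r) ^ 2 * (1 + κ ^ 2 * a ^ 2 / 80) :=
          mul_le_mul_of_nonneg_right hle2 (by positivity)
      _ ≤ (1 + κ * a * r + (κ * a * r) ^ 2 / 2) ^ 2 := by nlinarith
      _ ≤ Real.exp (κ * a * r) ^ 2 := h3
      _ = Real.exp (2 * (κ * a * r)) := h2.symm
      _ ≤ _ := h1

end Pool.Agent.H653.MR
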